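import Mathlib
import Pool.Agent.H64.RatIdeal.Main

/-!
# Point masses, multiplication operators and finitely supported approximations in `ℓ¹(F_n)`
-/

namespace Pool.Agent.H64.GenIdeal

open Pool.Agent.H64.AugIdeal Pool.Agent.H64.RatIdeal

variable {n k : ℕ}

theorem norm_pt (v : FreeGroup (Fin n)) : ‖(pt v : L1 n)‖ = 1 := by
  classical
  rw [L1.norm_eq, tsum_eq_single v]
  · rw [pt_apply, if_pos rfl, norm_one]
  · intro u hu
    rw [pt_apply, if_neg hu, norm_zero]

theorem conv_pt_pt (g h : FreeGroup (Fin n)) : conv (pt g) (pt h) = pt (g * h) := by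
  classical
  apply L1.ext
  intro u
  rw [conv_apply, tsum_eq_single g]
  · rw [pt_apply, if_pos rfl, one_mul, pt_apply, pt_apply]
    by_cases h1 : u = g * h
    · rw [if_pos h1, if_pos (by rw [h1, inv_mul_cancel_left])]
    · rw [if_neg h1, if_neg]
      intro h2
      exact h1 (by rw [← h2, mul_inv_cancel_left])
  · intro v hv
    rw [pt_apply, if_neg hv, zero_mul]

/-- Left multiplication as a continuous linear map. -/
noncomputable def convLc (x : L1 n) : L1 n →L[ℂ] L1 n :=
  (convL x).mkContinuous ‖x‖ (fun y => by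
    rw [mul_comm]
    exact (norm_conv_le x y).trans_eq (mul_comm _ _ |>.trans (mul_comm _ _)))

theorem convLc_apply (x y : L1 n) : convLc x y = conv x y := rfl

theorem conv_sub' (x y z : L1 n) : conv x (y - z) = conv x y - conv x z :=
  map_sub (convLc x) y z

theorem conv_sum' {α : Type*} (s : Finset α) (x : L1 n) (y : α → L1 n) :
    conv x (∑ a ∈ s, y a) = ∑ a ∈ s, conv x (y a) := map_sum (convLc x) y s

theorem conv_zero' (x : L1 n) : conv x 0 = 0 := map_zero (convLc x)

theorem norm_aug_le (z : L1 n) : ‖aug z‖ ≤ ‖z‖ := by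
  unfold aug
  rw [L1.norm_eq]
  exact norm_tsum_le_tsum_norm (L1.summable_norm z)

theorem aug_pt' (g : FreeGroup (Fin n)) : aug (pt g) = 1 := by
  classical
  unfold aug
  rw [tsum_eq_single g]
  · rw [pt_apply, if_pos rfl]
  · intro u hu
    rw [pt_apply, if_neg hu]

/-- An element of `ℓ¹` is the sum of its point masses. -/
theorem hasSum_smul_pt (z : L1 n) : HasSum (fun g => z g • (pt g : L1 n)) z := by
  classical
  have h := lp.hasSum_single (E := fun _ : FreeGroup (Fin n) => ℂ) (p := 1) (by norm_num) z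
  refine h.congr_fun ?_
  intro g
  apply L1.ext
  intro u
  rw [L1.smul_apply, pt_apply]
  by_cases hu : u = g
  · subst hu
    rw [if_pos rfl, mul_one]
    exact (lp.single_apply_self (E := fun _ : FreeGroup (Fin n) => ℂ) 1 u (z u)).symm
  · rw [if_neg hu, mul_zero]
    exact (lp.single_apply_ne (E := fun _ : FreeGroup (Fin n) => ℂ) 1 g (z g) hu).symm

/-- An element of `I_0` is a sum of multiples of `δ_g - δ_1`. -/
theorem hasSum_I0 {z : L1 n} (hz : z ∈ I0 n) :
    HasSum (fun g => z g • ((pt g : L1 n) - pt 1)) z := by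
  have h1 := hasSum_smul_pt z
  have h2 : HasSum (fun g => z g • (pt 1 : L1 n)) ((∑' g, z g) • (pt 1 : L1 n)) :=
    (L1.summable z).hasSum.smul_const _
  have h3 := h1.sub h2
  rw [mem_I0.1 hz, zero_smul, sub_zero] at h3
  refine h3.congr_fun fun g => ?_
  rw [smul_sub]

theorem finSupp_pt (g : FreeGroup (Fin n)) : FinSupp (pt g : L1 n) := by
  classical
  refine (Set.finite_singleton g).subset ?_
  intro u hu
  by_contra h
  apply hu
  rw [pt_apply, if_neg (fun e => h (Set.mem_singleton_iff.2 e))]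

theorem finSupp_sum {α : Type*} (s : Finset α) (z : α → L1 n) (hz : ∀ a ∈ s, FinSupp (z a)) :
    FinSupp (∑ a ∈ s, z a) := by
  refine (Set.Finite.biUnion s.finite_toSet fun a ha => hz a ha).subset ?_
  intro g hg
  by_contra hcon
  apply hg
  rw [apply_sum]
  refine Finset.sum_eq_zero fun a ha => ?_
  by_contra h
  exact hcon (Set.mem_biUnion (Finset.mem_coe.2 ha) h)

theorem finSupp_smul (c : ℂ) {z : L1 n} (hz : FinSupp z) : FinSupp (c • z) := by
  refine hz.subset ?_
  intro g hg h
  apply hg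
  rw [L1.smul_apply, h, mul_zero]

/-- Finitely supported elements are dense in `I_0`. -/
theorem exists_finSupp {z : L1 n} (hz : z ∈ I0 n) {δ : ℝ} (hδ : 0 < δ) :
    ∃ w ∈ I0 n, FinSupp w ∧ ‖z - w‖ < δ := by
  obtain ⟨s, hs⟩ := (Metric.tendsto_atTop.1 (hasSum_I0 hz) δ hδ)
  refine ⟨∑ g ∈ s, z g • ((pt g : L1 n) - pt 1), ?_, ?_, ?_⟩
  · exact Submodule.sum_mem _ fun g _ => Submodule.smul_mem _ _ (pt_sub_mem g 1)
  · exact finSupp_sum _ _ fun g _ => finSupp_smul _ (finSupp_sub (finSupp_pt g) (finSupp_pt 1))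
  · have h := hs s le_rfl
    rw [dist_eq_norm, norm_sub_rev] at h
    exact h

/-- A closed subspace that contains all `δ_g - δ_1` contains `I_0`. -/
theorem I0_le_of_closed {K : Set (L1 n)} (hK : IsClosed K) (h0 : (0 : L1 n) ∈ K)
    (hadd : ∀ x ∈ K, ∀ y ∈ K, x + y ∈ K) (hsmul : ∀ (c : ℂ), ∀ x ∈ K, c • x ∈ K)
    (hpt : ∀ g, (pt g : L1 n) - pt 1 ∈ K) {z : L1 n} (hz : z ∈ I0 n) : z ∈ K := by
  classical
  refine hK.mem_of_tendsto (hasSum_I0 hz) (Filter.Eventually.of_forall fun s => ?_)
  induction s using Finset.induction_on with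
  | empty => rw [Finset.sum_empty]; exact h0
  | insert a s ha ih =>
    rw [Finset.sum_insert ha]
    exact hadd _ (hsmul _ _ (hpt a)) _ ih

end Pool.Agent.H64.GenIdeal
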