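import Mathlib
import Pool.Agent.H64.GenIdeal.Basic

/-!
# Lower bounds by pairing with bounded functions
-/

namespace Pool.Agent.H64.GenIdeal

open Pool.Agent.H64.AugIdeal Pool.Agent.H64.RatIdeal

variable {n k : ℕ}

/-- A real function as a complex function. -/
def cpx (φ : FreeGroup (Fin n) → ℝ) (g : FreeGroup (Fin n)) : ℂ := (φ g : ℂ)

theorem norm_cpx_le {φ : FreeGroup (Fin n) → ℝ} {B : ℝ} (hB : ∀ g, |φ g| ≤ B)
    (g : FreeGroup (Fin n)) : ‖cpx φ g‖ ≤ B := by
  unfold cpx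
  rw [Complex.norm_real, Real.norm_eq_abs]
  exact hB g

theorem bdd_cpx {φ : FreeGroup (Fin n) → ℝ} {B : ℝ} (hB : ∀ g, |φ g| ≤ B) : Bdd (cpx φ) :=
  ⟨B, norm_cpx_le hB⟩

theorem norm_act_le {φ : FreeGroup (Fin n) → ℂ} {B : ℝ} (hB : ∀ g, ‖φ g‖ ≤ B) (z : L1 n)
    (v : FreeGroup (Fin n)) : ‖act φ z v‖ ≤ B * ‖z‖ := by
  unfold act
  have h1 : Summable fun g => ‖z g * φ (g * v)‖ := summable_mul_bounded z fun g => hB _
  refine (norm_tsum_le_tsum_norm h1).trans ?_
  rw [L1.norm_eq, ← tsum_mul_left]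
  refine h1.tsum_le_tsum (fun g => ?_) ((L1.summable_norm z).mul_left B)
  rw [norm_mul, mul_comm]
  exact mul_le_mul_of_nonneg_right (hB _) (norm_nonneg _)

/-- The first moment of `x`. -/
noncomputable def wt (x : L1 n) : ℝ := ∑' h, ‖x h‖ * FreeGroup.norm h

theorem wt_nonneg (x : L1 n) : 0 ≤ wt x :=
  tsum_nonneg fun _ => mul_nonneg (norm_nonneg _) (Nat.cast_nonneg _)

theorem norm_act_le_wt {x : L1 n} (hx : x ∈ I0 n) (hfin : FinSupp x)
    {φ : FreeGroup (Fin n) → ℝ} {B : ℝ} (hB : ∀ g, |φ g| ≤ B)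
    (hlip : ∀ h v, |φ (h * v) - φ v| ≤ FreeGroup.norm h) (v : FreeGroup (Fin n)) :
    ‖act (cpx φ) x v‖ ≤ wt x := by
  have h1 : act (cpx φ) x v = ∑' h, x h * (cpx φ (h * v) - cpx φ v) := by
    unfold act
    simp only [mul_sub]
    have h2 : Summable fun h => x h * cpx φ v := (L1.summable x).mul_right _
    rw [((bdd_cpx hB).summable x v).tsum_sub h2, tsum_mul_right, mem_I0.1 hx, zero_mul, sub_zero]
  have hs : Summable fun h => ‖x h‖ * (FreeGroup.norm h : ℝ) := by
    refine summable_of_hasFiniteSupport (hfin.subset ?_)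
    intro g hg h
    apply hg
    change ‖x g‖ * _ = 0
    rw [h, norm_zero, zero_mul]
  have h3 : ∀ h, ‖x h * (cpx φ (h * v) - cpx φ v)‖ ≤ ‖x h‖ * (FreeGroup.norm h : ℝ) := by
    intro h
    rw [norm_mul]
    refine mul_le_mul_of_nonneg_left ?_ (norm_nonneg _)
    unfold cpx
    rw [← Complex.ofReal_sub, Complex.norm_real, Real.norm_eq_abs]
    exact hlip h v
  have h4 : Summable fun h => ‖x h * (cpx φ (h * v) - cpx φ v)‖ :=
    Summable.of_nonneg_of_le (fun _ => norm_nonneg _) h3 hs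
  rw [h1]
  exact (norm_tsum_le_tsum_norm h4).trans (h4.tsum_le_tsum h3 hs)

/-- The real part of the pairing. -/
theorem half_ineq {x E : Fin k → L1 n} {B C e : ℝ} (y : Fin k → L1 n)
    {φ : FreeGroup (Fin n) → ℝ} (hB : ∀ g, |φ g| ≤ B)
    (h1 : ∀ i v, ‖act (cpx φ) (x i) v‖ ≤ C)
    (h2 : ∀ i v, ∃ r : ℝ, act (cpx φ) (E i) v = r ∧ e * |(y i v).re| ≤ (y i v).re * r) :
    e * ∑ i, ∑' v, |(y i v).re| ≤
      B * ‖∑ i, conv (x i + E i) (y i)‖ + C * ∑ i, ‖y i‖ := by
  have hbd := bdd_cpx hB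
  -- the pairing
  have h3 : act (cpx φ) (∑ i, conv (x i + E i) (y i)) 1 =
      ∑ i, ∑' v, y i v * act (cpx φ) (x i + E i) v := by
    rw [act_sum hbd]
    refine Finset.sum_congr rfl fun i _ => ?_
    rw [act_conv hbd]
    unfold act
    refine tsum_congr fun v => ?_
    rw [mul_one]
  have h4 : ∀ i, e * ∑' v, |(y i v).re| - C * ‖y i‖ ≤
      (∑' v, y i v * act (cpx φ) (x i + E i) v).re := by
    intro i
    have hs : Summable fun v => y i v * act (cpx φ) (x i + E i) v := by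
      have := (hbd.act (x i + E i)).summable (y i) 1
      simpa only [mul_one] using this
    have hre : Summable fun v => |(y i v).re| :=
      Summable.of_nonneg_of_le (fun _ => abs_nonneg _) (fun v => Complex.abs_re_le_norm _)
        (L1.summable_norm (y i))
    rw [Complex.re_tsum hs, L1.norm_eq, ← tsum_mul_left, ← tsum_mul_left,
      ← (hre.mul_left e).tsum_sub ((L1.summable_norm (y i)).mul_left C)]
    refine Summable.tsum_le_tsum (fun v => ?_)
      ((hre.mul_left e).sub ((L1.summable_norm (y i)).mul_left C)) (Complex.reCLM.summable hs)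
    obtain ⟨r, hr, hr2⟩ := h2 i v
    rw [act_add hbd, hr, mul_add, Complex.add_re]
    have h5 : (y i v * (r : ℂ)).re = (y i v).re * r := by
      rw [Complex.mul_re, Complex.ofReal_re, Complex.ofReal_im, mul_zero, sub_zero]
    have h6 : |(y i v * act (cpx φ) (x i) v).re| ≤ C * ‖y i v‖ := by
      refine (Complex.abs_re_le_norm _).trans ?_
      rw [norm_mul, mul_comm]
      exact mul_le_mul_of_nonneg_right (h1 i v) (norm_nonneg _)
    rw [h5]
    have h7 := (abs_le.1 h6).1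
    linarith
  have h5 : (act (cpx φ) (∑ i, conv (x i + E i) (y i)) 1).re ≤
      B * ‖∑ i, conv (x i + E i) (y i)‖ :=
    ((le_abs_self _).trans (Complex.abs_re_le_norm _)).trans (norm_act_le (norm_cpx_le hB) _ _)
  rw [h3, Complex.re_sum] at h5
  have h6 := Finset.sum_le_sum fun i (_ : i ∈ Finset.univ) => h4 i
  rw [Finset.sum_sub_distrib, ← Finset.mul_sum, ← Finset.mul_sum] at h6
  linarith

/-- Both parts of the pairing. -/
theorem full_ineq {x E : Fin k → L1 n} {B C e : ℝ} (he : 0 ≤ e)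
    (h : ∀ c : Fin k → FreeGroup (Fin n) → ℝ, (∀ i v, c i v = 1 ∨ c i v = -1) →
      ∃ φ : FreeGroup (Fin n) → ℝ, (∀ g, |φ g| ≤ B) ∧ (∀ i v, ‖act (cpx φ) (x i) v‖ ≤ C) ∧
        ∀ i v, ∃ r : ℝ, act (cpx φ) (E i) v = r ∧ e ≤ c i v * r) (y : Fin k → L1 n) :
    (e - 2 * C) * ∑ i, ‖y i‖ ≤ 2 * B * ‖∑ i, conv (x i + E i) (y i)‖ := by
  classical
  have key : ∀ y : Fin k → L1 n, e * ∑ i, ∑' v, |(y i v).re| ≤
      B * ‖∑ i, conv (x i + E i) (y i)‖ + C * ∑ i, ‖y i‖ := by
    intro y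
    obtain ⟨φ, h1, h2, h3⟩ := h (fun i v => if 0 ≤ (y i v).re then 1 else -1) (by
      intro i v
      split_ifs
      · exact Or.inl rfl
      · exact Or.inr rfl)
    refine half_ineq y h1 h2 fun i v => ?_
    obtain ⟨r, hr, hr2⟩ := h3 i v
    refine ⟨r, hr, ?_⟩
    split_ifs at hr2 with hc
    · rw [abs_of_nonneg hc]
      nlinarith
    · push Not at hc
      rw [abs_of_neg hc]
      nlinarith
  have k1 := key y
  have k2 := key fun i => (-Complex.I) • y i
  have h1 : ∑ i, conv (x i + E i) ((-Complex.I) • y i) =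
      (-Complex.I) • ∑ i, conv (x i + E i) (y i) := by
    rw [Finset.smul_sum]
    exact Finset.sum_congr rfl fun i _ => conv_smul _ _ _
  have h2 : ∀ i v, (((-Complex.I) • y i) v).re = (y i v).im := by
    intro i v
    rw [L1.smul_apply]
    simp
  have h3 : ∀ z : L1 n, ‖(-Complex.I) • z‖ = ‖z‖ := by
    intro z
    rw [norm_smul, norm_neg, Complex.norm_I, one_mul]
  simp only [h2, h1, h3] at k2
  have h4 : ∑ i, ‖y i‖ ≤ ∑ i, ∑' v, |(y i v).re| + ∑ i, ∑' v, |(y i v).im| := by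
    rw [← Finset.sum_add_distrib]
    refine Finset.sum_le_sum fun i _ => ?_
    have hre : Summable fun v => |(y i v).re| :=
      Summable.of_nonneg_of_le (fun _ => abs_nonneg _) (fun v => Complex.abs_re_le_norm _)
        (L1.summable_norm (y i))
    have him : Summable fun v => |(y i v).im| :=
      Summable.of_nonneg_of_le (fun _ => abs_nonneg _) (fun v => Complex.abs_im_le_norm _)
        (L1.summable_norm (y i))
    rw [L1.norm_eq, ← hre.tsum_add him]
    exact (L1.summable_norm (y i)).tsum_le_tsum (fun v => Complex.norm_le_abs_re_add_abs_im _)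
      (hre.add him)
  have h5 := mul_le_mul_of_nonneg_left h4 he
  rw [mul_add] at h5
  linarith

end Pool.Agent.H64.GenIdeal
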