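import Mathlib
import Pool.Agent.H64.GenIdeal.Basic

/-!
# Tuples whose multiplication operator is bounded below do not generate
-/

namespace Pool.Agent.H64.GenIdeal

open Pool.Agent.H64.AugIdeal Pool.Agent.H64.RatIdeal

variable {n k : ℕ}

/-- The tuple `x` is bounded below: `‖∑ x_i y_i‖ ≥ c ∑ ‖y_i‖` for all `y`, with some `c > 0`. -/
def BoundedBelow (x : Fin k → L1 n) : Prop :=
  ∃ c : ℝ, 0 < c ∧ ∀ y : Fin k → L1 n, c * ∑ i, ‖y i‖ ≤ ‖∑ i, conv (x i) (y i)‖

/-- The map `y ↦ ∑ x_i y_i`. -/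
noncomputable def opP (x : Fin k → L1 n) : (Fin k → L1 n) →L[ℂ] L1 n :=
  ∑ i, (convLc (x i)).comp (ContinuousLinearMap.proj i)

theorem opP_apply (x y : Fin k → L1 n) : opP x y = ∑ i, conv (x i) (y i) := by
  unfold opP
  rw [sum_apply]
  rfl

theorem norm_le_sum (y : Fin k → L1 n) : ‖y‖ ≤ ∑ i, ‖y i‖ := by
  rw [pi_norm_le_iff_of_nonneg (Finset.sum_nonneg fun _ _ => norm_nonneg _)]
  intro i
  exact Finset.single_le_sum (f := fun i => ‖y i‖) (fun _ _ => norm_nonneg _) (Finset.mem_univ i)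

theorem antilipschitz {x : Fin k → L1 n} {c : ℝ} (hc : 0 < c)
    (h : ∀ y : Fin k → L1 n, c * ∑ i, ‖y i‖ ≤ ‖∑ i, conv (x i) (y i)‖) :
    AntilipschitzWith (Real.toNNReal c⁻¹) (opP x) := by
  refine ContinuousLinearMap.antilipschitz_of_bound _ fun y => ?_
  rw [Real.coe_toNNReal _ (inv_nonneg.2 hc.le), opP_apply, ← div_eq_inv_mul, le_div_iff₀ hc,
    mul_comm]
  exact (mul_le_mul_of_nonneg_left (norm_le_sum y) hc.le).trans (h y)

theorem opP_single (x : Fin k → L1 n) (i : Fin k) : opP x (Pi.single i (pt 1)) = x i := by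
  classical
  rw [opP_apply, Finset.sum_eq_single i]
  · rw [Pi.single_eq_same, pt_one_conv]
  · intro j _ hj
    rw [Pi.single_eq_of_ne hj, conv_zero']
  · intro h
    exact absurd (Finset.mem_univ i) h

/-- A bounded below tuple of elements of `I_0` does not generate `I_0` (`n ≥ 1`). -/
theorem generated_ne (hn : 1 ≤ n) {x : Fin k → L1 n} (hx : ∀ i, x i ∈ I0 n)
    (hb : BoundedBelow x) : generated x ≠ I0 n := by
  classical
  obtain ⟨c, hc, h⟩ := hb
  have hanti := antilipschitz hc h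
  have hemb := hanti.isClosedEmbedding (opP x).uniformContinuous
  intro heq
  -- the range is a closed right ideal
  have hJ : IsClosedRightIdeal (LinearMap.range (opP x).toLinearMap) := by
    refine ⟨?_, ?_, ?_⟩
    · rintro _ ⟨y, rfl⟩
      change opP x y ∈ I0 n
      rw [opP_apply]
      exact Submodule.sum_mem _ fun i _ => conv_mem_I0 (hx i) (y i)
    · have := hemb.isClosed_range
      rwa [show ((LinearMap.range (opP x).toLinearMap : Submodule ℂ (L1 n)) : Set (L1 n)) =
        Set.range (opP x) from rfl]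
    · rintro _ ⟨y, rfl⟩ g _
      refine ⟨fun i => conv (y i) g, ?_⟩
      change opP x _ = conv (opP x y) g
      rw [opP_apply, opP_apply, sum_conv]
      exact Finset.sum_congr rfl fun i _ => (conv_assoc _ _ _).symm
  have hsurj : ∀ z ∈ I0 n, ∃ y, opP x y = z := by
    intro z hz
    rw [← heq] at hz
    have hle : generated x ≤ LinearMap.range (opP x).toLinearMap :=
      sInf_le ⟨hJ, fun i => ⟨Pi.single i (pt 1), opP_single x i⟩⟩
    exact hle hz
  have hinj : Function.Injective (opP x) := hanti.injective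
  -- preimages of `δ_g - δ_1` have entries in `I_0`
  have haug : ∀ (g : FreeGroup (Fin n)) (y : Fin k → L1 n), opP x y = pt g - pt 1 →
      ∀ i, aug (y i) = 0 := by
    intro g y hy i
    have h1 : ∀ m : ℕ, (m : ℝ) * ‖aug (y i)‖ ≤ 2 / c := by
      intro m
      let u : Fin k → L1 n := fun i => conv (y i) (∑ j ∈ Finset.range m, pt (g ^ j))
      have h2 : ∑ i, conv (x i) (u i) = pt (g ^ m) - pt 1 := by
        have h3 : ∑ i, conv (x i) (u i) =
            conv (opP x y) (∑ j ∈ Finset.range m, pt (g ^ j)) := by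
          rw [opP_apply, sum_conv]
          exact Finset.sum_congr rfl fun i _ => (conv_assoc _ _ _).symm
        rw [h3, hy, conv_sum']
        have h4 : ∀ j, conv (pt g - pt 1) (pt (g ^ j)) = pt (g ^ (j + 1)) - pt (g ^ j) := by
          intro j
          rw [sub_conv, conv_pt_pt, conv_pt_pt, one_mul, pow_succ']
        simp only [h4]
        rw [Finset.sum_range_sub (fun j => (pt (g ^ j) : L1 n)), pow_zero]
      have h5 := h u
      rw [h2] at h5
      have h6 : ‖(pt (g ^ m) : L1 n) - pt 1‖ ≤ 2 := by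
        refine (norm_sub_le _ _).trans ?_
        rw [norm_pt, norm_pt]
        norm_num
      have h7 : ‖u i‖ ≤ ∑ i, ‖u i‖ :=
        Finset.single_le_sum (f := fun i => ‖u i‖) (fun _ _ => norm_nonneg _) (Finset.mem_univ i)
      have h8 : aug (u i) = aug (y i) * m := by
        change aug (conv (y i) _) = _
        rw [aug_conv, aug_sum]
        simp only [aug_pt']
        simp
      have h9 := norm_aug_le (u i)
      rw [h8, norm_mul, Complex.norm_natCast] at h9
      rw [le_div_iff₀ hc]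
      nlinarith
    by_contra hne
    have hpos : 0 < ‖aug (y i)‖ := norm_pos_iff.2 hne
    obtain ⟨m, hm⟩ := exists_nat_gt (2 / c / ‖aug (y i)‖)
    rw [div_lt_iff₀ hpos] at hm
    exact absurd (h1 m) (not_le.2 hm)
  -- the image of `I_0^k`
  let K : Set (L1 n) := opP x '' {y | ∀ i, y i ∈ I0 n}
  have hKc : IsClosed K := by
    refine hemb.isClosedMap _ ?_
    have : {y : Fin k → L1 n | ∀ i, y i ∈ I0 n} = ⋂ i, (fun y => y i) ⁻¹' (I0 n : Set (L1 n)) := by
      ext y
      simp
    rw [this]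
    exact isClosed_iInter fun i => isClosed_I0.preimage (continuous_apply i)
  have hK : ∀ z ∈ I0 n, z ∈ K := by
    intro z hz
    refine I0_le_of_closed hKc ?_ ?_ ?_ ?_ hz
    · exact ⟨0, fun i => Submodule.zero_mem _, map_zero _⟩
    · rintro _ ⟨y, hy, rfl⟩ _ ⟨y', hy', rfl⟩
      exact ⟨y + y', fun i => Submodule.add_mem _ (hy i) (hy' i), map_add _ _ _⟩
    · rintro a _ ⟨y, hy, rfl⟩
      exact ⟨a • y, fun i => Submodule.smul_mem _ _ (hy i), map_smul _ _ _⟩
    · intro g
      obtain ⟨y, hy⟩ := hsurj _ (pt_sub_mem g 1)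
      exact ⟨y, fun i => mem_I0.2 (haug g y hy i), hy⟩
  rcases Nat.eq_zero_or_pos k with hk | hk
  · subst hk
    obtain ⟨y, hy⟩ := hsurj _ (pt_sub_mem (FreeGroup.of ⟨0, hn⟩) 1)
    rw [opP_apply, Finset.univ_eq_empty, Finset.sum_empty] at hy
    have h1 : (pt (FreeGroup.of (⟨0, hn⟩ : Fin n)) - pt 1 : L1 n) 1 = 0 := by
      rw [← hy]
      rfl
    rw [L1.sub_apply, pt_apply, pt_apply, if_pos rfl, if_neg (fun e => FreeGroup.of_ne_one _ e.symm)]
      at h1
    norm_num at h1
  · obtain ⟨y, hy, hy2⟩ := hK _ (hx ⟨0, hk⟩)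
    have h1 : y = Pi.single (⟨0, hk⟩ : Fin k) (pt 1) := hinj (hy2.trans (opP_single x _).symm)
    have h2 := hy ⟨0, hk⟩
    rw [h1, Pi.single_eq_same] at h2
    have h3 : aug (pt 1 : L1 n) = 0 := h2
    rw [aug_pt'] at h3
    exact one_ne_zero h3

end Pool.Agent.H64.GenIdeal
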