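import Mathlib

/-!
# A Lipschitz function which is `-B` on a set and `B` far from it
-/

namespace Pool.Agent.H64.GenIdeal

variable {n : ℕ}

/-- The distance to `S`, cut at `2 B`. -/
noncomputable def cut (S : Set (FreeGroup (Fin n))) (B : ℕ) (v : FreeGroup (Fin n)) : ℕ :=
  sInf {j : ℕ | j = 2 * B ∨ ∃ s ∈ S, FreeGroup.norm (s * v⁻¹) ≤ j}

theorem cut_mem (S : Set (FreeGroup (Fin n))) (B : ℕ) (v : FreeGroup (Fin n)) :
    cut S B v = 2 * B ∨ ∃ s ∈ S, FreeGroup.norm (s * v⁻¹) ≤ cut S B v :=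
  Nat.sInf_mem (s := {j : ℕ | j = 2 * B ∨ ∃ s ∈ S, FreeGroup.norm (s * v⁻¹) ≤ j})
    ⟨2 * B, Or.inl rfl⟩

theorem cut_le (S : Set (FreeGroup (Fin n))) (B : ℕ) (v : FreeGroup (Fin n)) :
    cut S B v ≤ 2 * B := Nat.sInf_le (Or.inl rfl)

theorem cut_le_norm {S : Set (FreeGroup (Fin n))} {B j : ℕ} {v s : FreeGroup (Fin n)} (hs : s ∈ S)
    (h : FreeGroup.norm (s * v⁻¹) ≤ j) : cut S B v ≤ j := Nat.sInf_le (Or.inr ⟨s, hs, h⟩)

theorem cut_self {S : Set (FreeGroup (Fin n))} {B : ℕ} {v : FreeGroup (Fin n)} (hv : v ∈ S) :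
    cut S B v = 0 := by
  refine Nat.le_zero.1 (cut_le_norm hv ?_)
  rw [mul_inv_cancel]
  simp

theorem cut_far {S : Set (FreeGroup (Fin n))} {B : ℕ} {v : FreeGroup (Fin n)}
    (hv : ∀ s ∈ S, 2 * B ≤ FreeGroup.norm (s * v⁻¹)) : cut S B v = 2 * B := by
  refine le_antisymm (cut_le S B v) ?_
  rcases cut_mem S B v with h | ⟨s, hs, h⟩
  · exact h.ge
  · exact (hv s hs).trans h

theorem cut_mul_le (S : Set (FreeGroup (Fin n))) (B : ℕ) (h v : FreeGroup (Fin n)) :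
    cut S B (h * v) ≤ cut S B v + FreeGroup.norm h := by
  rcases cut_mem S B v with h1 | ⟨s, hs, h1⟩
  · rw [h1]
    exact (cut_le S B _).trans (Nat.le_add_right _ _)
  · refine cut_le_norm hs ?_
    have h2 : s * (h * v)⁻¹ = s * v⁻¹ * h⁻¹ := by
      rw [mul_inv_rev, mul_assoc]
    rw [h2]
    refine (FreeGroup.norm_mul_le _ _).trans ?_
    rw [FreeGroup.norm_inv_eq]
    exact Nat.add_le_add_right h1 _

theorem cut_le_mul (S : Set (FreeGroup (Fin n))) (B : ℕ) (h v : FreeGroup (Fin n)) :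
    cut S B v ≤ cut S B (h * v) + FreeGroup.norm h := by
  have h1 := cut_mul_le S B h⁻¹ (h * v)
  rw [inv_mul_cancel_left, FreeGroup.norm_inv_eq] at h1
  exact h1

/-- The function `min (d(v, S), 2 B) - B`. -/
noncomputable def sgnFun (S : Set (FreeGroup (Fin n))) (B : ℕ) (v : FreeGroup (Fin n)) : ℝ :=
  (cut S B v : ℝ) - B

theorem abs_sgnFun_le (S : Set (FreeGroup (Fin n))) (B : ℕ) (v : FreeGroup (Fin n)) :
    |sgnFun S B v| ≤ B := by
  unfold sgnFun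
  have h1 : (cut S B v : ℝ) ≤ 2 * B := by exact_mod_cast cut_le S B v
  have h2 : (0 : ℝ) ≤ cut S B v := Nat.cast_nonneg _
  rw [abs_le]
  constructor <;> linarith

theorem abs_sgnFun_sub_le (S : Set (FreeGroup (Fin n))) (B : ℕ) (h v : FreeGroup (Fin n)) :
    |sgnFun S B (h * v) - sgnFun S B v| ≤ FreeGroup.norm h := by
  unfold sgnFun
  have h1 : (cut S B (h * v) : ℝ) ≤ cut S B v + FreeGroup.norm h := by
    exact_mod_cast cut_mul_le S B h v
  have h2 : (cut S B v : ℝ) ≤ cut S B (h * v) + FreeGroup.norm h := by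
    exact_mod_cast cut_le_mul S B h v
  rw [abs_le]
  constructor <;> linarith

theorem sgnFun_self {S : Set (FreeGroup (Fin n))} {B : ℕ} {v : FreeGroup (Fin n)} (hv : v ∈ S) :
    sgnFun S B v = -B := by
  unfold sgnFun
  rw [cut_self hv]
  simp

theorem sgnFun_far {S : Set (FreeGroup (Fin n))} {B : ℕ} {v : FreeGroup (Fin n)}
    (hv : ∀ s ∈ S, 2 * B ≤ FreeGroup.norm (s * v⁻¹)) : sgnFun S B v = B := by
  unfold sgnFun
  rw [cut_far hv]
  push_cast
  ring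

end Pool.Agent.H64.GenIdeal
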