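import Mathlib
import Pool.Agent.H64.AugIdeal.Tree

/-!
# Far apart points in the free group
-/

namespace Pool.Agent.H64.GenIdeal

open FreeGroup

variable {n : ℕ}

/-- The last letters. -/
def last (a b : Fin n) : Fin 4 → Fin n × Bool := ![(a, true), (a, false), (b, true), (b, false)]

/-- The letters before the last ones. -/
def prev (a b : Fin n) : Fin 4 → Fin n × Bool := ![(a, true), (a, false), (b, true), (a, true)]

/-- The word `a^(D(i+1)) b s(x)`. -/
def word (a b : Fin n) (D i : ℕ) (x : Fin 4) : List (Fin n × Bool) :=
  List.replicate (D * (i + 1)) (a, true) ++ (b, true) :: prev a b x :: [last a b x]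

/-- There is no cancellation between the last letter and `h`. -/
def Good (a b : Fin n) (x : Fin 4) (h : FreeGroup (Fin n)) : Prop :=
  h.toWord.head? ≠ some ((last a b x).1, !(last a b x).2)

/-- The point `a^(D(i+1)) b s(x) h`. -/
def pos (a b : Fin n) (D i : ℕ) (x : Fin 4) (h : FreeGroup (Fin n)) : FreeGroup (Fin n) :=
  FreeGroup.mk (word a b D i x) * h

theorem last_injective {a b : Fin n} (hab : a ≠ b) : Function.Injective (last a b) := by
  intro x y h
  fin_cases x <;> fin_cases y <;> simp [last, hab, hab.symm] at h ⊢

theorem bad_unique {a b : Fin n} (hab : a ≠ b) {x y : Fin 4} {h : FreeGroup (Fin n)}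
    (hx : ¬ Good a b x h) (hy : ¬ Good a b y h) : x = y := by
  unfold Good at hx hy
  push Not at hx hy
  rw [hx, Option.some_inj, Prod.mk.injEq] at hy
  apply last_injective hab
  refine Prod.ext hy.1 ?_
  have := hy.2
  revert this
  cases (last a b x).2 <;> cases (last a b y).2 <;> simp

theorem left_form (l : List (Fin n × Bool)) (p : FreeGroup (Fin n)) :
    ∃ (m : ℕ) (U : List (Fin n × Bool)), m + U.length ≤ l.length ∧
      (FreeGroup.mk l * p).toWord = U ++ p.toWord.drop m := by
  induction l with
  | nil =>
    refine ⟨0, [], le_rfl, ?_⟩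
    rw [← FreeGroup.one_eq_mk, one_mul]
    rfl
  | cons c l ih =>
    obtain ⟨m, U, hm, hU⟩ := ih
    have h1 : FreeGroup.mk (c :: l) * p = FreeGroup.mk [c] * (FreeGroup.mk l * p) := by
      rw [← mul_assoc, FreeGroup.mul_mk]
      rfl
    rw [h1]
    rcases AugIdeal.toWord_letter_mul c (FreeGroup.mk l * p) with h2 | h2
    · refine ⟨m, c :: U, ?_, ?_⟩
      · simp only [List.length_cons]
        omega
      · rw [h2, hU]
        rfl
    · rw [hU] at h2
      rcases U with _ | ⟨u, U⟩
      · refine ⟨m + 1, [], ?_, ?_⟩
        · simp only [List.length_cons, List.length_nil] at hm ⊢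
          omega
        · have h3 := congrArg List.tail h2
          rw [List.nil_append, List.tail_drop, List.tail_cons] at h3
          rw [List.nil_append, h3]
      · refine ⟨m, U, ?_, ?_⟩
        · simp only [List.length_cons] at hm ⊢
          omega
        · rw [List.cons_append, List.cons.injEq] at h2
          exact h2.2.symm

theorem isReduced_word {a b : Fin n} (hab : a ≠ b) (D i : ℕ) {x : Fin 4}
    {h : FreeGroup (Fin n)} (hg : Good a b x h) : IsReduced (word a b D i x ++ h.toWord) := by
  have h1 : IsReduced (last a b x :: h.toWord) := by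
    refine List.isChain_cons.2 ⟨?_, isReduced_toWord⟩
    intro y hy hxy
    by_contra hne
    apply hg
    rw [Option.mem_def] at hy
    rw [hy, Option.some_inj]
    refine Prod.ext hxy.symm ?_
    revert hne
    cases (last a b x).2 <;> cases y.2 <;> simp
  have h2 : IsReduced (prev a b x :: last a b x :: h.toWord) := by
    refine List.isChain_cons_cons.2 ⟨?_, h1⟩
    fin_cases x <;> simp [prev, last, hab]
  have h3 : IsReduced ((b, true) :: prev a b x :: last a b x :: h.toWord) := by
    refine List.isChain_cons_cons.2 ⟨?_, h2⟩
    fin_cases x <;> simp [prev, hab.symm]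
  have h4 : word a b D i x ++ h.toWord = List.replicate (D * (i + 1)) (a, true) ++
      (b, true) :: prev a b x :: last a b x :: h.toWord := by
    unfold word
    simp
  rw [h4]
  refine List.isChain_append.2 ⟨?_, h3, ?_⟩
  · exact List.isChain_replicate_of_rel _ (fun _ => rfl)
  · intro y hy z hz hyz
    have hy' := List.mem_of_mem_getLast? hy
    rw [List.mem_replicate] at hy'
    rw [List.head?_cons, Option.mem_def, Option.some_inj] at hz
    rw [hy'.2, ← hz] at hyz
    exact absurd hyz hab

theorem toWord_pos {a b : Fin n} (hab : a ≠ b) (D i : ℕ) {x : Fin 4}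
    {h : FreeGroup (Fin n)} (hg : Good a b x h) :
    (pos a b D i x h).toWord = word a b D i x ++ h.toWord := by
  have h1 := isReduced_word hab D i hg
  have h2 : IsReduced (word a b D i x) := (List.isChain_append.1 h1).1
  unfold pos
  rw [toWord_mul, toWord_mk, h2.reduce_eq, h1.reduce_eq]

theorem replicate_inj {α : Type*} {A B : α} (hAB : A ≠ B) {R R' : List α} :
    ∀ {p q : ℕ}, List.replicate p A ++ B :: R = List.replicate q A ++ B :: R' → p = q ∧ R = R'
  | 0, 0, h => ⟨rfl, by simpa using h⟩
  | 0, q + 1, h => by
    simp only [List.replicate_zero, List.nil_append, List.replicate_succ, List.cons_append,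
      List.cons.injEq] at h
    exact absurd h.1.symm hAB
  | p + 1, 0, h => by
    simp only [List.replicate_zero, List.nil_append, List.replicate_succ, List.cons_append,
      List.cons.injEq] at h
    exact absurd h.1 hAB
  | p + 1, q + 1, h => by
    simp only [List.replicate_succ, List.cons_append, List.cons.injEq, true_and] at h
    obtain ⟨h1, h2⟩ := replicate_inj hAB h
    exact ⟨by rw [h1], h2⟩

theorem split_replicate {α : Type*} {A : α} {U X Y : List α} {N : ℕ} (hU : U.length ≤ N)
    (h : List.replicate N A ++ Y = U ++ X) : X = List.replicate (N - U.length) A ++ Y := by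
  have h1 := congrArg (List.drop U.length) h
  rw [List.drop_left, List.drop_append_of_le_length (by rw [List.length_replicate]; exact hU),
    List.drop_replicate] at h1
  exact h1.symm

theorem separation {a b : Fin n} (hab : a ≠ b) {D i j : ℕ} {x y : Fin 4}
    {h g : FreeGroup (Fin n)} (hx : Good a b x h) (hy : Good a b y g)
    (hne : ¬ (i = j ∧ x = y ∧ h = g)) :
    D ≤ FreeGroup.norm (pos a b D j y g * (pos a b D i x h)⁻¹) := by
  by_contra hlt
  push Not at hlt
  set q := pos a b D j y g * (pos a b D i x h)⁻¹ with hq
  have h1 : FreeGroup.mk q.toWord * pos a b D i x h = pos a b D j y g := by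
    rw [FreeGroup.mk_toWord, hq, inv_mul_cancel_right]
  obtain ⟨m, U, hm, hU⟩ := left_form q.toWord (pos a b D i x h)
  have hlen : m + U.length < D := lt_of_le_of_lt hm hlt
  rw [h1, toWord_pos hab D j hy, toWord_pos hab D i hx] at hU
  unfold word at hU
  rw [List.append_assoc, List.append_assoc] at hU
  have hDi : D ≤ D * (i + 1) := Nat.le_mul_of_pos_right _ (Nat.succ_pos _)
  have hDj : D ≤ D * (j + 1) := Nat.le_mul_of_pos_right _ (Nat.succ_pos _)
  have h2 := split_replicate (by omega) hU
  rw [List.drop_append_of_le_length (by rw [List.length_replicate]; omega),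
    List.drop_replicate] at h2
  simp only [List.cons_append] at h2
  have hAB : ((a, true) : Fin n × Bool) ≠ (b, true) := fun e => hab (congrArg Prod.fst e)
  obtain ⟨h3, h4⟩ := replicate_inj hAB h2
  simp only [List.nil_append, List.cons.injEq] at h4
  obtain ⟨-, h5, h6⟩ := h4
  apply hne
  refine ⟨?_, last_injective hab h5, FreeGroup.toWord_injective h6⟩
  rcases lt_trichotomy i j with hij | hij | hij
  · exfalso
    have : D * (i + 1) + D ≤ D * (j + 1) := by
      calc D * (i + 1) + D = D * (i + 1 + 1) := by ring
        _ ≤ D * (j + 1) := Nat.mul_le_mul_left _ (by omega)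
    omega
  · exact hij
  · exfalso
    have : D * (j + 1) + D ≤ D * (i + 1) := by
      calc D * (j + 1) + D = D * (j + 1 + 1) := by ring
        _ ≤ D * (i + 1) := Nat.mul_le_mul_left _ (by omega)
    omega

end Pool.Agent.H64.GenIdeal
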