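import Mathlib
import Pool.Agent.H64.GenIdeal.NonGen
import Pool.Agent.H64.GenIdeal.Phi
import Pool.Agent.H64.GenIdeal.Ineq
import Pool.Agent.H64.GenIdeal.Words

/-!
# Tuples which are bounded below are open and dense in the augmentation ideal
-/

namespace Pool.Agent.H64.GenIdeal

open Pool.Agent.H64.AugIdeal Pool.Agent.H64.RatIdeal

variable {n k : ℕ}

/-- The signs `+ - + -`. -/
def sg : Fin 4 → ℝ := ![1, -1, 1, -1]

theorem sg_cases (x : Fin 4) : sg x = 1 ∨ sg x = -1 := by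
  fin_cases x <;> simp [sg]

theorem abs_sg (x : Fin 4) : |sg x| = 1 := by
  rcases sg_cases x with h | h <;> rw [h] <;> norm_num

/-- The perturbation `E_i`. -/
noncomputable def pert (a b : Fin n) (B : ℕ) (ε : ℝ) (i : ℕ) : L1 n :=
  ((ε / 4 : ℝ) : ℂ) • ∑ x : Fin 4, ((sg x : ℝ) : ℂ) • pt (FreeGroup.mk (word a b (2 * B) i x))

theorem pert_mem (a b : Fin n) (B : ℕ) (ε : ℝ) (i : ℕ) : pert a b B ε i ∈ I0 n := by
  have h1 : aug (pert a b B ε i) = 0 := by
    unfold pert
    rw [aug_smul, aug_sum]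
    simp only [aug_smul, aug_pt']
    simp [Fin.sum_univ_four, sg]
  exact h1

theorem norm_pert_le (a b : Fin n) (B : ℕ) {ε : ℝ} (hε : 0 ≤ ε) (i : ℕ) :
    ‖pert a b B ε i‖ ≤ ε := by
  unfold pert
  rw [norm_smul, Complex.norm_real, Real.norm_eq_abs, abs_of_nonneg (by positivity)]
  have h1 : ‖∑ x : Fin 4, ((sg x : ℝ) : ℂ) • (pt (FreeGroup.mk (word a b (2 * B) i x)) : L1 n)‖
      ≤ 4 := by
    refine (norm_sum_le _ _).trans ?_
    have : ∀ x : Fin 4, ‖((sg x : ℝ) : ℂ) • (pt (FreeGroup.mk (word a b (2 * B) i x)) : L1 n)‖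
        = 1 := by
      intro x
      rw [norm_smul, norm_pt, Complex.norm_real, Real.norm_eq_abs, abs_sg, mul_one]
    simp only [this]
    simp
  calc ε / 4 * _ ≤ ε / 4 * 4 := mul_le_mul_of_nonneg_left h1 (by positivity)
    _ = ε := by ring

theorem act_pt_left (φ : FreeGroup (Fin n) → ℂ) (w v : FreeGroup (Fin n)) :
    act φ (pt w) v = φ (w * v) := (hasSum_pt w fun h => φ (h * v)).tsum_eq

theorem act_smul (φ : FreeGroup (Fin n) → ℂ) (c : ℂ) (z : L1 n) (v : FreeGroup (Fin n)) :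
    act φ (c • z) v = c * act φ z v := by
  unfold act
  rw [← tsum_mul_left]
  refine tsum_congr fun h => ?_
  rw [L1.smul_apply, mul_assoc]

theorem sum_four {f : Fin 4 → ℝ} {B : ℝ} (hB : 0 ≤ B) (h1 : ∀ x, -B ≤ f x)
    (h2 : ∀ x y, f x ≠ B → f y ≠ B → x = y) : 2 * B ≤ ∑ x, f x := by
  by_cases h : ∀ x, f x = B
  · simp only [h]
    rw [Finset.sum_const, Finset.card_univ, Fintype.card_fin, nsmul_eq_mul]
    push_cast
    linarith
  · push Not at h
    obtain ⟨x, hx⟩ := h
    have h3 : ∑ y ∈ Finset.univ.erase x, f y = 3 * B := by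
      have : ∀ y ∈ Finset.univ.erase x, f y = B := by
        intro y hy
        by_contra hne
        exact (Finset.ne_of_mem_erase hy) (h2 y x hne hx)
      rw [Finset.sum_congr rfl this, Finset.sum_const, Finset.card_erase_of_mem (Finset.mem_univ x),
        Finset.card_univ, Fintype.card_fin, nsmul_eq_mul]
      norm_num
    rw [← Finset.add_sum_erase _ _ (Finset.mem_univ x), h3]
    have := h1 x
    linarith

theorem exists_phi {a b : Fin n} (hab : a ≠ b) (B : ℕ) {ε : ℝ} (hε : 0 < ε)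
    (c : Fin k → FreeGroup (Fin n) → ℝ) (hc : ∀ i v, c i v = 1 ∨ c i v = -1) :
    ∃ φ : FreeGroup (Fin n) → ℝ, (∀ g, |φ g| ≤ B) ∧
      (∀ h v, |φ (h * v) - φ v| ≤ FreeGroup.norm h) ∧
      ∀ (i : Fin k) v, ∃ r : ℝ, act (cpx φ) (pert a b B ε i) v = r ∧ ε * B / 2 ≤ c i v * r := by
  let S : Set (FreeGroup (Fin n)) := {g | ∃ (i : Fin k) (x : Fin 4) (h : FreeGroup (Fin n)),
    Good a b x h ∧ sg x * c i h = -1 ∧ g = pos a b (2 * B) i x h}
  refine ⟨sgnFun S B, abs_sgnFun_le S B, abs_sgnFun_sub_le S B, ?_⟩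
  intro i v
  refine ⟨ε / 4 * ∑ x : Fin 4, sg x * sgnFun S B (pos a b (2 * B) i x v), ?_, ?_⟩
  · unfold pert
    rw [act_smul, act_sum (bdd_cpx (abs_sgnFun_le S B))]
    simp only [act_smul, act_pt_left]
    push_cast
    rfl
  · have hgood : ∀ x, Good a b x v → c i v * (sg x * sgnFun S B (pos a b (2 * B) i x v)) = B := by
      intro x hx
      have hpm : sg x * c i v = 1 ∨ sg x * c i v = -1 := by
        rcases sg_cases x with h | h <;> rcases hc i v with h' | h' <;> rw [h, h'] <;> norm_num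
      rcases hpm with h | h
      · have h1 : sgnFun S B (pos a b (2 * B) i x v) = B := by
          apply sgnFun_far
          rintro _ ⟨j, y, g, hy, hs, rfl⟩
          refine separation hab hx hy ?_
          rintro ⟨h1, h2, h3⟩
          have h4 : i = j := Fin.ext h1
          subst h4 h2 h3
          rw [h] at hs
          norm_num at hs
        rw [h1, ← mul_assoc, mul_comm (c i v), h, one_mul]
      · have h1 : sgnFun S B (pos a b (2 * B) i x v) = -B :=
          sgnFun_self ⟨i, x, v, hx, h, rfl⟩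
        rw [h1, ← mul_assoc, mul_comm (c i v), h]
        ring
    have h1 : 2 * (B : ℝ) ≤ ∑ x : Fin 4, c i v * (sg x * sgnFun S B (pos a b (2 * B) i x v)) := by
      refine sum_four (Nat.cast_nonneg B) (fun x => ?_) (fun x y hx hy => ?_)
      · have h2 : |c i v * (sg x * sgnFun S B (pos a b (2 * B) i x v))| ≤ B := by
          rw [abs_mul, abs_mul, abs_sg, one_mul]
          have : |c i v| = 1 := by
            rcases hc i v with h | h <;> rw [h] <;> norm_num
          rw [this, one_mul]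
          exact abs_sgnFun_le S B _
        exact (abs_le.1 h2).1
      · exact bad_unique hab (fun h => hx (hgood x h)) (fun h => hy (hgood y h))
    rw [← Finset.mul_sum] at h1
    have h2 : c i v * (ε / 4 * ∑ x : Fin 4, sg x * sgnFun S B (pos a b (2 * B) i x v)) =
        ε / 4 * (c i v * ∑ x : Fin 4, sg x * sgnFun S B (pos a b (2 * B) i x v)) := by ring
    rw [h2]
    have h3 := mul_le_mul_of_nonneg_left h1 (by positivity : 0 ≤ ε / 4)
    linarith

/-- Finitely supported tuples become bounded below after a small perturbation. -/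
theorem exists_pert (hn : 2 ≤ n) {x : Fin k → L1 n} (hx : ∀ i, x i ∈ I0 n)
    (hfin : ∀ i, FinSupp (x i)) {ε : ℝ} (hε : 0 < ε) :
    ∃ E : Fin k → L1 n, (∀ i, E i ∈ I0 n) ∧ (∀ i, ‖E i‖ ≤ ε) ∧
      BoundedBelow fun i => x i + E i := by
  let a : Fin n := ⟨0, by omega⟩
  let b : Fin n := ⟨1, by omega⟩
  have hab : a ≠ b := by simp [a, b]
  let C : ℝ := ∑ i, wt (x i)
  have hC0 : 0 ≤ C := Finset.sum_nonneg fun i _ => wt_nonneg _
  have hC : ∀ i, wt (x i) ≤ C := fun i =>
    Finset.single_le_sum (f := fun i => wt (x i)) (fun _ _ => wt_nonneg _) (Finset.mem_univ i)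
  obtain ⟨B, hB⟩ := exists_nat_gt (8 * C / ε)
  have hB0 : (0 : ℝ) < B := lt_of_le_of_lt (by positivity) hB
  rw [div_lt_iff₀ hε] at hB
  refine ⟨fun i => pert a b B ε i, fun i => pert_mem _ _ _ _ _,
    fun i => norm_pert_le _ _ _ hε.le _, ε / 8, by positivity, fun y => ?_⟩
  have h1 := full_ineq (x := x) (E := fun i : Fin k => pert a b B ε i) (B := B) (C := C)
    (e := ε * B / 2) (by positivity) (fun c hc => by
      obtain ⟨φ, h1, h2, h3⟩ := exists_phi hab B hε c hc
      exact ⟨φ, h1, fun i v => (norm_act_le_wt (hx i) (hfin i) h1 h2 v).trans (hC i), h3⟩) y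
  have h2 : 0 ≤ ∑ i, ‖y i‖ := Finset.sum_nonneg fun _ _ => norm_nonneg _
  have h3 : ε * B / 4 ≤ ε * B / 2 - 2 * C := by linarith
  have h4 := (mul_le_mul_of_nonneg_right h3 h2).trans h1
  have h5 : (2 * (B : ℝ)) * (ε / 8 * ∑ i, ‖y i‖) ≤
      2 * B * ‖∑ i, conv (x i + pert a b B ε i) (y i)‖ := by
    calc (2 * (B : ℝ)) * (ε / 8 * ∑ i, ‖y i‖) = ε * B / 4 * ∑ i, ‖y i‖ := by ring
      _ ≤ _ := h4
  exact le_of_mul_le_mul_left h5 (by positivity)

/-- The tuples of elements of `I_0` which are bounded below. -/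
def belowSet (n k : ℕ) : Set (Fin k → I0 n) := {x | BoundedBelow fun i => (x i : L1 n)}

theorem dense_belowSet (hn : 2 ≤ n) : Dense (belowSet n k) := by
  rw [Metric.dense_iff]
  intro x r hr
  have h1 : ∀ i, ∃ w ∈ I0 n, FinSupp w ∧ ‖(x i : L1 n) - w‖ < r / 4 := fun i =>
    exists_finSupp (x i).2 (by positivity)
  choose w hw hfin hd using h1
  obtain ⟨E, hE, hE2, hb⟩ := exists_pert hn hw hfin (ε := r / 4) (by positivity)
  refine ⟨fun i => ⟨w i + E i, Submodule.add_mem _ (hw i) (hE i)⟩, ?_, hb⟩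
  rw [Metric.mem_ball, dist_pi_lt_iff hr]
  intro i
  rw [Subtype.dist_eq, dist_eq_norm]
  change ‖w i + E i - (x i : L1 n)‖ < r
  have h2 : w i + E i - (x i : L1 n) = E i - ((x i : L1 n) - w i) := by abel
  rw [h2]
  have h3 := norm_sub_le (E i) ((x i : L1 n) - w i)
  have h4 := hd i
  have h5 := hE2 i
  linarith

theorem isOpen_belowSet : IsOpen (belowSet n k) := by
  rw [Metric.isOpen_iff]
  rintro x ⟨c, hc, h⟩
  refine ⟨c / 2, by positivity, fun z hz => ⟨c / 2, by positivity, fun y => ?_⟩⟩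
  rw [Metric.mem_ball, dist_pi_lt_iff (by positivity)] at hz
  have h1 : ∑ i, conv (x i : L1 n) (y i) =
      ∑ i, conv (z i : L1 n) (y i) - ∑ i, conv ((z i : L1 n) - (x i : L1 n)) (y i) := by
    rw [← Finset.sum_sub_distrib]
    refine Finset.sum_congr rfl fun i _ => ?_
    rw [sub_conv, sub_sub_cancel]
  have h2 : ‖∑ i, conv ((z i : L1 n) - (x i : L1 n)) (y i)‖ ≤ c / 2 * ∑ i, ‖y i‖ := by
    refine (norm_sum_le _ _).trans ?_
    rw [Finset.mul_sum]
    refine Finset.sum_le_sum fun i _ => ?_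
    refine (norm_conv_le _ _).trans ?_
    rw [mul_comm]
    refine mul_le_mul_of_nonneg_right ?_ (norm_nonneg _)
    have := (hz i).le
    rw [Subtype.dist_eq, dist_eq_norm] at this
    exact this
  have h3 := h y
  rw [h1] at h3
  have h4 := norm_sub_le (∑ i, conv (z i : L1 n) (y i)) (∑ i, conv ((z i : L1 n) - (x i : L1 n)) (y i))
  change c / 2 * ∑ i, ‖y i‖ ≤ ‖∑ i, conv (z i : L1 n) (y i)‖
  linarith

end Pool.Agent.H64.GenIdeal
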